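import Pool.Agent.H27.L1.H31.GK.TG
import Pool.Agent.H27.L1.H90.GA.CBas

/-!
Board ghk (MP_52e316_nt): rows BLF and QIN with the radius as a parameter.
-/

set_option autoImplicit false

noncomputable section

namespace Pool.Agent.H27.L1.H40.GHK

open MeasureTheory Set Pool.Agent.H27.L1.H34.GM Pool.Agent.H27.L1.H34.GZ Pool.Agent.H27.L1.H34.GU Pool.Agent.H27.L1.H34.GA
  Pool.Agent.H27.L1.H31.GK

/-- the mass of the matrix coefficient on the ball of radius `r` about the unit matrix -/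
def Hr {m N : ℕ} [NeZero N] (r : ℝ) (D : Set (V m)) (F : Mat m → VN m N → ℂ) : ℝ :=
  ∫ z in Bl m r, ‖ipz D F F (mt z)‖ ^ 2 ∂(hm m)

/-! ### the balls -/

/-- the unit matrix as a point -/
def one' (m : ℕ) : V m := fun i j => (1 : Mat m) i j

theorem sz_sub_one_eq {m : ℕ} (z : V m) : sz (mt z - 1) = ‖z - one' m‖ := rfl

theorem Bl_eq (m : ℕ) (r : ℝ) : Bl m r = Metric.closedBall (one' m) r := by
  ext z
  rw [Metric.mem_closedBall, dist_eq_norm]
  exact Iff.rfl

theorem Bl_meas (m : ℕ) (r : ℝ) : MeasurableSet (Bl m r) := by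
  rw [Bl_eq]
  exact measurableSet_closedBall

theorem Bl_mono {m : ℕ} {r s : ℝ} (h : r ≤ s) : Bl m r ⊆ Bl m s := fun _ hz => le_trans hz h

theorem Bl_det {m : ℕ} (hm1 : 1 ≤ m) {z : V m} (hz : z ∈ Bl m (1 / (2 * m))) :
    (mt z).det ≠ 0 := by
  refine (Pool.Agent.H27.L1.H90.GA.inv_near hm1 (w := mt z) hz ?_).1
  have : (0 : ℝ) < m := by exact_mod_cast hm1
  rw [mul_one_div, div_le_iff₀ (by positivity)]
  linarith

theorem cont_det (m : ℕ) : Continuous fun z : V m => (mt z).det := by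
  have h : Continuous (fun z : V m => (mt z : Mat m)) := continuous_id
  exact h.matrix_det

theorem Bl_fin {m : ℕ} (hm1 : 1 ≤ m) {r : ℝ} (hr : r ≤ 1 / (2 * m)) : hm m (Bl m r) < ⊤ := by
  refine lt_of_le_of_lt (measure_mono (Bl_mono hr)) ?_
  have hcpt : IsCompact (Bl m (1 / (2 * (m : ℝ)))) := by
    rw [Bl_eq]
    exact isCompact_closedBall _ _
  unfold hm
  rw [withDensity_apply _ (Bl_meas m _)]
  have hcont : ContinuousOn (fun z : V m => (|(mt z).det| ^ m)⁻¹) (Bl m (1 / (2 * (m : ℝ)))) := by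
    refine ContinuousOn.inv₀ (((cont_det m).abs.pow m).continuousOn) fun z hz => ?_
    exact pow_ne_zero _ (abs_ne_zero.mpr (Bl_det hm1 hz))
  obtain ⟨C, hC⟩ := hcpt.bddAbove_image hcont
  have hb : ∀ z ∈ Bl m (1 / (2 * (m : ℝ))), ENNReal.ofReal ((|(mt z).det| ^ m)⁻¹) ≤
      ENNReal.ofReal C := fun z hz => ENNReal.ofReal_le_ofReal (hC (mem_image_of_mem _ hz))
  refine lt_of_le_of_lt (setLIntegral_mono measurable_const hb) ?_
  rw [setLIntegral_const]
  exact ENNReal.mul_lt_top ENNReal.ofReal_lt_top hcpt.measure_lt_top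

theorem Bl_pos {m : ℕ} (hm1 : 1 ≤ m) {r : ℝ} (hr : 0 < r) : 0 < hm m (Bl m r) := by
  have hm0 : (0 : ℝ) < m := by exact_mod_cast hm1
  set s : ℝ := min r (1 / (2 * m)) with hs
  have hs0 : 0 < s := lt_min hr (by positivity)
  refine lt_of_lt_of_le ?_ (measure_mono (Bl_mono (min_le_left r (1 / (2 * m)))))
  rw [pos_iff_ne_zero]
  intro h0
  unfold hm at h0
  rw [withDensity_apply _ (Bl_meas m _)] at h0
  have hmeas : Measurable fun z : V m => ENNReal.ofReal ((|(mt z).det| ^ m)⁻¹) := by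
    have h1 : Measurable fun z : V m => (mt z).det := (cont_det m).measurable
    exact ENNReal.measurable_ofReal.comp ((h1.abs.pow_const m).inv)
  rw [lintegral_eq_zero_iff hmeas] at h0
  have h1 := (ae_restrict_iff' (Bl_meas m s)).mp h0
  have h2 : volume (Bl m s) = 0 := by
    refine measure_mono_null (t := {z | ¬ (z ∈ Bl m s → ENNReal.ofReal ((|(mt z).det| ^ m)⁻¹) =
      (0 : V m → ENNReal) z)}) ?_ (ae_iff.mp h1)
    intro z hz hc
    have h3 := hc hz
    rw [Pi.zero_apply, ENNReal.ofReal_eq_zero] at h3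
    have h4 : 0 < (|(mt z).det| ^ m)⁻¹ :=
      inv_pos.mpr (pow_pos (abs_pos.mpr (Bl_det hm1 (Bl_mono (min_le_right _ _) hz))) _)
    linarith
  rw [Bl_eq] at h2
  exact (Metric.measure_closedBall_pos volume (one' m) hs0).ne' h2

theorem Bl_quot {m : ℕ} (hm1 : 1 ≤ m) {r : ℝ} (hr : 0 < r) (hr1 : r ≤ 1 / (2 * m)) {z w : V m}
    (hz : z ∈ Bl m (r / (4 * m))) (hw : w ∈ Bl m (r / (4 * m))) :
    sz ((mt w)⁻¹ * mt z - 1) ≤ r := by
  have hm0 : (1 : ℝ) ≤ m := by exact_mod_cast hm1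
  set t : ℝ := r / (4 * m) with ht
  have ht0 : 0 < t := by positivity
  have hrt : r = 4 * m * t := by rw [ht]; field_simp
  have hr2 : r ≤ 1 / 2 := by
    refine hr1.trans ?_
    rw [div_le_div_iff₀ (by positivity) (by norm_num)]
    linarith
  have ht1 : (m : ℝ) * t ≤ 1 / 8 := by nlinarith
  obtain ⟨hdw, hiw⟩ := Pool.Agent.H27.L1.H90.GA.inv_near hm1 (w := mt w) hw (by linarith)
  have h1 : (mt w)⁻¹ * mt z - 1 = (mt w)⁻¹ * (mt z - mt w) := by
    rw [mul_sub, Matrix.nonsing_inv_mul _ (isUnit_iff_ne_zero.mpr hdw)]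
  have hadd : ∀ a b : Mat m, sz (a + b) ≤ sz a + sz b := fun a b =>
    norm_add_le ((fun i j => a i j) : V m) ((fun i j => b i j) : V m)
  have hneg : ∀ a : Mat m, sz (-a) = sz a := fun a => norm_neg ((fun i j => a i j) : V m)
  have h2 : sz (mt z - mt w) ≤ 2 * t := by
    have e : (mt z - mt w : Mat m) = (mt z - 1) + -(mt w - 1) := by abel
    rw [e]
    refine (hadd _ _).trans ?_
    rw [hneg]
    have hz' : sz (mt z - 1) ≤ t := hz
    have hw' : sz (mt w - 1) ≤ t := hw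
    linarith
  have hone : sz (1 : Mat m) ≤ 1 := by
    refine Pool.Agent.H27.L1.H90.GA.sz_le zero_le_one fun i j => ?_
    rw [Matrix.one_apply]
    split_ifs <;> simp
  have h3 : sz (mt w)⁻¹ ≤ 2 := by
    have e : ((mt w)⁻¹ : Mat m) = 1 + ((mt w)⁻¹ - 1) := by abel
    rw [e]
    refine (hadd _ _).trans ?_
    have : (2 : ℝ) * t ≤ 1 := by nlinarith
    linarith
  rw [h1]
  refine (Pool.Agent.H27.L1.H90.GA.sz_mul _ _).trans ?_
  have h4 : 0 ≤ sz (mt z - mt w) := Pool.Agent.H27.L1.H90.GA.sz_nn _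
  calc (m : ℝ) * sz (mt w)⁻¹ * sz (mt z - mt w) ≤ m * 2 * (2 * t) := by
        refine mul_le_mul (mul_le_mul_of_nonneg_left h3 (by linarith)) h2 h4 (by positivity)
    _ = r := by rw [hrt]; ring

/-- the balls: row BLF with the radius as a parameter -/
def T_BLR : Prop := ∀ m : ℕ, 1 ≤ m →
  (∀ r : ℝ, MeasurableSet (Bl m r)) ∧ (∀ z ∈ Bl m (1 / (2 * m)), (mt z).det ≠ 0) ∧
  (∀ r : ℝ, r ≤ 1 / (2 * m) → hm m (Bl m r) < ⊤) ∧ (∀ r : ℝ, 0 < r → 0 < hm m (Bl m r)) ∧
  ∀ r : ℝ, 0 < r → r ≤ 1 / (2 * m) → ∀ z ∈ Bl m (r / (4 * m)), ∀ w ∈ Bl m (r / (4 * m)),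
    sz ((mt w)⁻¹ * mt z - 1) ≤ r

theorem pf_BLR : T_BLR := fun m hm1 =>
  ⟨Bl_meas m, fun _ hz => Bl_det hm1 hz, fun _ hr => Bl_fin hm1 hr, fun _ hr => Bl_pos hm1 hr,
    fun _ hr hr1 _ hz _ hw => Bl_quot hm1 hr hr1 hz hw⟩

theorem pf_BLF : T_BLF := by
  intro m hm1
  have hm0 : (1 : ℝ) ≤ m := by exact_mod_cast hm1
  refine ⟨Bl_meas m, fun _ hz => Bl_det hm1 hz, Bl_fin hm1 le_rfl, fun _ hr => Bl_pos hm1 hr,
    fun z hz w hw => ?_⟩
  have e : r0 m = (1 / (2 * (m : ℝ))) / (4 * m) := by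
    unfold r0
    rw [div_div]
    congr 1
    ring
  rw [e] at hz hw
  exact Bl_quot hm1 (by positivity) le_rfl hz hw

/-! ### measurability and boundedness of the matrix coefficient -/

variable {m N : ℕ} [NeZero N] {T : ℕ → Finset (ZM m)} {D : Set (V m)}
  {F G : Mat m → VN m N → ℂ} {lam : ℕ → ℂ}

/-- the good set -/
def Gd (m : ℕ) : Set (V m × V m) := {p | (mt p.1).det ≠ 0 ∧ (mt p.2).det ≠ 0}

theorem Gd_meas (m : ℕ) : MeasurableSet (Gd m) := by
  have h1 : Measurable fun p : V m × V m => (mt p.1).det := ((cont_det m).comp continuous_fst).measurable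
  have h2 : Measurable fun p : V m × V m => (mt p.2).det := ((cont_det m).comp continuous_snd).measurable
  exact (h1 (measurableSet_singleton 0).compl).inter (h2 (measurableSet_singleton 0).compl)

/-- the integrand -/
def Phi (F : Mat m → VN m N → ℂ) (x : VN m N) (p : V m × V m) : ℂ :=
  F ((mt p.2 : Mat m) * mt p.1) x * (starRingEnd ℂ) (F (mt p.2) x)

theorem Phi_cont (hF : ∀ x, ContinuousOn (fun g => F g x) {g | g.det ≠ 0}) (x : VN m N) :
    ContinuousOn (Phi F x) (Gd m) := by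
  have hmt : Continuous (fun z : V m => (mt z : Mat m)) := continuous_id
  refine ContinuousOn.mul ?_ ?_
  · refine ContinuousOn.comp (g := fun g : Mat m => F g x) (t := {g | g.det ≠ 0}) (hF x) ?_ ?_
    · exact ((hmt.comp continuous_snd).matrix_mul (hmt.comp continuous_fst)).continuousOn
    · intro p hp
      change ((mt p.2 : Mat m) * mt p.1).det ≠ 0
      rw [Matrix.det_mul]
      exact mul_ne_zero hp.2 hp.1
  · refine (continuous_star.comp_continuousOn (f := fun p : V m × V m => F (mt p.2) x) ?_ :)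
    refine ContinuousOn.comp (g := fun g : Mat m => F g x) (t := {g | g.det ≠ 0}) (hF x) ?_ ?_
    · exact (hmt.comp continuous_snd).continuousOn
    · intro p hp
      exact hp.2

theorem Phi_meas (hF : ∀ x, ContinuousOn (fun g => F g x) {g | g.det ≠ 0}) (x : VN m N) :
    Measurable ((Gd m).indicator (Phi F x)) := by
  classical
  have h := (Phi_cont hF x).measurable_piecewise (g := fun _ => (0 : ℂ)) continuousOn_const
    (Gd_meas m)
  have e : (Gd m).piecewise (Phi F x) (fun _ => (0 : ℂ)) = (Gd m).indicator (Phi F x) :=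
    Set.piecewise_eq_indicator
  rwa [e] at h

/-- a measurable version of the matrix coefficient -/
def ipm (D : Set (V m)) (F : Mat m → VN m N → ℂ) (w : V m) : ℂ :=
  ∑ x, ∫ z, (Gd m).indicator (Phi F x) (w, z) ∂((hm m).restrict D)

theorem ipm_meas (hF : ∀ x, ContinuousOn (fun g => F g x) {g | g.det ≠ 0})
    [SFinite ((hm m).restrict D)] : StronglyMeasurable (ipm D F) := by
  unfold ipm
  refine Finset.stronglyMeasurable_fun_sum _ fun x _ => ?_
  exact ((Phi_meas hF x).stronglyMeasurable).integral_prod_right'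

theorem ipm_eq (hm1 : 1 ≤ m) (hD : DomZ m D) {w : V m} (hw : (mt w).det ≠ 0) :
    ipm D F w = ipz D F F (mt w) := by
  unfold ipm ipz
  refine Finset.sum_congr rfl fun x _ => ?_
  refine setIntegral_congr_fun hD.meas fun z hz => ?_
  have h : (w, z) ∈ Gd m := ⟨hw, Pool.Agent.H27.L1.H90.GA.det_ne_D hm1 hD hz⟩
  exact indicator_of_mem h (Phi F x)

theorem ipm_bd (hb : ∃ B : ℝ, ∀ g x, g.det ≠ 0 → ‖F g x‖ ≤ B)
    [IsFiniteMeasure ((hm m).restrict D)] : ∃ K : ℝ, ∀ w, ‖ipm D F w‖ ≤ K := by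
  obtain ⟨B, hB⟩ := hb
  have hB0 : 0 ≤ B := (norm_nonneg _).trans (hB 1 0 (by simp))
  refine ⟨∑ _x : VN m N, B * B * ((hm m).restrict D).real univ, fun w => ?_⟩
  unfold ipm
  refine (norm_sum_le _ _).trans (Finset.sum_le_sum fun x _ => ?_)
  refine norm_integral_le_of_norm_le_const (Filter.Eventually.of_forall fun z => ?_)
  by_cases h : (w, z) ∈ Gd m
  · rw [indicator_of_mem h]
    unfold Phi
    rw [norm_mul, RCLike.norm_conj]
    refine mul_le_mul (hB _ _ ?_) (hB _ _ h.2) (norm_nonneg _) hB0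
    rw [Matrix.det_mul]
    exact mul_ne_zero h.2 h.1
  · rw [indicator_of_notMem h, norm_zero]
    positivity

/-! ### the double integral -/

theorem quot_meas (m : ℕ) :
    Measurable fun p : V m × V m => ((fun i j => ((mt p.2)⁻¹ * mt p.1) i j) : V m) := by
  refine measurable_pi_lambda _ fun i => measurable_pi_lambda _ fun j => ?_
  have hmt : Continuous (fun z : V m => (mt z : Mat m)) := continuous_id
  have hadj : Continuous fun z : V m => (mt z).adjugate := hmt.matrix_adjugate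
  have e : (fun p : V m × V m => ((mt p.2)⁻¹ * mt p.1) i j) =
      fun p => ∑ k, ((mt p.2).det⁻¹ * (mt p.2).adjugate i k) * p.1 k j := by
    funext p
    rw [Matrix.mul_apply]
    refine Finset.sum_congr rfl fun k _ => ?_
    rw [Matrix.inv_def, Matrix.smul_apply, Ring.inverse_eq_inv', smul_eq_mul]
    rfl
  rw [e]
  refine Finset.measurable_fun_sum _ fun k _ => ?_
  refine Measurable.mul (Measurable.mul ?_ ?_) ?_
  · exact (((cont_det m).measurable).comp measurable_snd).inv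
  · exact ((hadj.matrix_elem i k).measurable).comp measurable_snd
  · exact (measurable_pi_apply j).comp ((measurable_pi_apply k).comp measurable_fst)

/-- row QIN with the radius as a parameter -/
def T_QIR : Prop := ∀ (m N : ℕ) [NeZero N] (T : ℕ → Finset (ZM m)) (D : Set (V m)),
  SysZ m N T D → ∀ (F : Mat m → VN m N → ℂ) (lam : ℕ → ℂ), HecA m N T F lam →
  ∀ r : ℝ, 0 < r → r ≤ 1 / (2 * m) →
    ∫ p, ‖ipz D F F ((mt p.2)⁻¹ * mt p.1)‖ ^ 2 ∂(((hm m).restrict (Bl m (r / (4 * m)))).prod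
      ((hm m).restrict (Bl m (r / (4 * m))))) ≤
      (hm m (Bl m (r / (4 * m)))).toReal * Hr r D F

theorem integral_le_of_lintegral {α : Type*} [MeasurableSpace α] {μ : Measure α} {f : α → ℝ}
    {K : ENNReal} (hK : K ≠ ⊤) (hf : ∀ a, 0 ≤ f a) (h : ∫⁻ a, ENNReal.ofReal (f a) ∂μ ≤ K) :
    ∫ a, f a ∂μ ≤ K.toReal := by
  by_cases hm : AEStronglyMeasurable f μ
  · rw [integral_eq_lintegral_of_nonneg_ae (Filter.Eventually.of_forall hf) hm]
    exact ENNReal.toReal_mono hK h
  · rw [integral_non_aestronglyMeasurable hm]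
    exact ENNReal.toReal_nonneg

theorem pf_QIR (hVL : T_VLM) (hHAR : T_HAR) : T_QIR := by
  intro m N _ T D hS F lam hF r hr hr1
  have hm1 := hS.one_le
  have hm0 : (1 : ℝ) ≤ m := by exact_mod_cast hm1
  have hfinD : IsFiniteMeasure ((hm m).restrict D) := Pool.Agent.H27.L1.H90.GA.fin_D hVL hm1 hS.dom
  have hsf : SFinite (hm m) := by
    unfold hm
    infer_instance
  obtain ⟨K, hK⟩ := ipm_bd (F := F) (D := D) hF.bdd
  have hmeas : StronglyMeasurable (ipm D F) := ipm_meas hF.cont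
  set B : Set (V m) := Bl m (r / (4 * m)) with hB
  have hsub : B ⊆ Bl m (1 / (2 * m)) := by
    refine Bl_mono ?_
    refine le_trans (div_le_self hr.le (by linarith)) hr1
  have hBfin : hm m B < ⊤ := lt_of_le_of_lt (measure_mono hsub) (Bl_fin hm1 le_rfl)
  have hrfin : hm m (Bl m r) < ⊤ := Bl_fin hm1 hr1
  -- the function on the large ball
  set f : V m → ENNReal := (Bl m r).indicator fun z => ENNReal.ofReal (‖ipm D F z‖ ^ 2) with hf
  have hfm : Measurable f := by
    refine Measurable.indicator ?_ (Bl_meas m r)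
    exact ENNReal.measurable_ofReal.comp (hmeas.measurable.norm.pow_const 2)
  have hI : ∫⁻ z, f z ∂(hm m) = ENNReal.ofReal (Hr r D F) := by
    rw [hf, lintegral_indicator (Bl_meas m r)]
    unfold Hr
    have h1 : ∫ z in Bl m r, ‖ipz D F F (mt z)‖ ^ 2 ∂(hm m) =
        ∫ z in Bl m r, ‖ipm D F z‖ ^ 2 ∂(hm m) := by
      refine setIntegral_congr_fun (Bl_meas m r) fun z hz => ?_
      rw [ipm_eq hm1 hS.dom (Bl_det hm1 (Bl_mono hr1 hz))]
    rw [h1, ofReal_integral_eq_lintegral_ofReal]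
    · have hfr : IsFiniteMeasure ((hm m).restrict (Bl m r)) := ⟨by
        rw [Measure.restrict_apply_univ]; exact hrfin⟩
      refine Integrable.of_bound (hmeas.norm.pow 2).aestronglyMeasurable (K ^ 2)
        (Filter.Eventually.of_forall fun z => ?_)
      rw [Real.norm_eq_abs, abs_of_nonneg (sq_nonneg _)]
      exact pow_le_pow_left₀ (norm_nonneg _) (hK z) 2
    · exact Filter.Eventually.of_forall fun z => sq_nonneg _
  have hHr0 : 0 ≤ Hr r D F := integral_nonneg fun z => sq_nonneg _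
  have hgoal : (hm m B).toReal * Hr r D F = (hm m B * ENNReal.ofReal (Hr r D F)).toReal := by
    rw [ENNReal.toReal_mul, ENNReal.toReal_ofReal hHr0]
  rw [hgoal]
  refine integral_le_of_lintegral (ENNReal.mul_ne_top hBfin.ne ENNReal.ofReal_ne_top)
    (fun p => sq_nonneg _) ?_
  -- replace the integrand by `f`
  have hstep : ∫⁻ p, ENNReal.ofReal (‖ipz D F F ((mt p.2)⁻¹ * mt p.1)‖ ^ 2)
      ∂(((hm m).restrict B).prod ((hm m).restrict B)) ≤
      ∫⁻ p, f (fun i j => ((mt p.2)⁻¹ * mt p.1) i j)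
        ∂(((hm m).restrict B).prod ((hm m).restrict B)) := by
    refine lintegral_mono_ae ?_
    rw [Measure.prod_restrict]
    refine (ae_restrict_iff' ((Bl_meas m _).prod (Bl_meas m _))).mpr
      (Filter.Eventually.of_forall fun p hp => ?_)
    have h1 : ((fun i j => ((mt p.2)⁻¹ * mt p.1) i j) : V m) ∈ Bl m r :=
      Bl_quot hm1 hr hr1 hp.1 hp.2
    rw [hf, indicator_of_mem h1, ipm_eq hm1 hS.dom (Bl_det hm1 (Bl_mono hr1 h1))]
    exact le_rfl
  refine hstep.trans ?_
  have hg : Measurable fun p : V m × V m => f (fun i j => ((mt p.2)⁻¹ * mt p.1) i j) := by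
    exact hfm.comp (quot_meas m)
  rw [lintegral_prod_symm _ hg.aemeasurable]
  calc ∫⁻ w, ∫⁻ z, f (fun i j => ((mt w)⁻¹ * mt z) i j) ∂((hm m).restrict B) ∂((hm m).restrict B)
      ≤ ∫⁻ _w, ENNReal.ofReal (Hr r D F) ∂((hm m).restrict B) := by
        refine lintegral_mono_ae ((ae_restrict_iff' (Bl_meas m _)).mpr
          (Filter.Eventually.of_forall fun w hw => ?_))
        refine (lintegral_mono' Measure.restrict_le_self le_rfl).trans ?_
        have hdw : (mt w).det ≠ 0 := Bl_det hm1 (hsub hw)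
        rw [((hHAR m hm1).1 ((mt w)⁻¹) (Pool.Agent.H27.L1.H90.GA.det_inv_ne hdw) f hfm).1, hI]
    _ = hm m B * ENNReal.ofReal (Hr r D F) := by
        rw [lintegral_const, Measure.restrict_apply_univ, mul_comm]

theorem pf_QIN (hVL : T_VLM) (hHAR : T_HAR) : T_QIN := by
  intro m N _ T D hS F lam hF
  have hm0 : (1 : ℝ) ≤ m := by exact_mod_cast hS.one_le
  have h := pf_QIR hVL hHAR m N T D hS F lam hF (r1 m) (by unfold r1; positivity) le_rfl
  have e : r1 m / (4 * m) = r0 m := by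
    unfold r0 r1
    rw [div_div]
    congr 1
    ring
  rw [e] at h
  exact h

end Pool.Agent.H27.L1.H40.GHK
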