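import Pool.Agent.H27.L1.H31.GK.TG2
import Pool.Agent.H27.L1.H40.GHK.QIN

/-!
Board ghk (MP_52e316_nt): rows BLR and QIR.
-/

set_option autoImplicit false

namespace Pool.Agent.H27.L1.H40.GHK

open MeasureTheory Pool.Agent.H27.L1.H34.GM Pool.Agent.H27.L1.H34.GZ

theorem pf_BLR2 : Pool.Agent.H27.L1.H31.GK.T_BLR := by
  intro m hm1 r hr hr1
  have hm0 : (1 : ℝ) ≤ m := by exact_mod_cast hm1
  exact ⟨Bl_meas m r, fun z hz => Bl_det hm1 (Bl_mono hr1 hz), Bl_fin hm1 hr1, Bl_pos hm1 hr,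
    fun z hz w hw => Bl_quot hm1 hr hr1 hz hw⟩

theorem pf_QIR2 (hVL : T_VLM) (hHAR : T_HAR) : Pool.Agent.H27.L1.H31.GK.T_QIR :=
  fun m N _ T D hS r hr hr1 F lam hF => pf_QIR hVL hHAR m N T D hS F lam hF r hr hr1

end Pool.Agent.H27.L1.H40.GHK
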