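import Mathlib

/-! Positivity of the gradient of the phase of the spherical power functions. -/

noncomputable section

namespace Pool.Agent.H27.L1.H40.GHK

open Matrix

section
variable {n : Type*} [Fintype n] [DecidableEq n]

/-- symmetric idempotent -/
def Prj (E : Matrix n n ℝ) : Prop := Eᵀ = E ∧ E * E = E

/-- squared Frobenius norm (sum of the squares of the entries) -/
def fsq {m n : Type*} [Fintype m] [Fintype n] (A : Matrix m n ℝ) : ℝ := ∑ i, ∑ j, A i j ^ 2

theorem fsq_nonneg {m : Type*} [Fintype m] (A : Matrix m n ℝ) : 0 ≤ fsq A :=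
  Finset.sum_nonneg fun _ _ => Finset.sum_nonneg fun _ _ => sq_nonneg _

theorem trace_mul_tr {m : Type*} [Fintype m] (A : Matrix m n ℝ) : trace (A * Aᵀ) = fsq A := by
  simp [trace, fsq, mul_apply, pow_two]

theorem Prj.compl {E : Matrix n n ℝ} (h : Prj E) : Prj (1 - E) := by
  refine ⟨by rw [transpose_sub, h.1, transpose_one], ?_⟩
  rw [mul_sub, sub_mul, sub_mul, h.2]
  simp

theorem Prj.trace_mul_nonneg {E F : Matrix n n ℝ} (hE : Prj E) (hF : Prj F) :
    0 ≤ trace (E * F) := by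
  have h : trace (E * F) = fsq (E * F) := by
    rw [← trace_mul_tr, transpose_mul, hE.1, hF.1]
    calc trace (E * F) = trace (E * E * (F * F)) := by rw [hE.2, hF.2]
      _ = trace (E * (E * (F * F))) := by rw [mul_assoc]
      _ = trace (E * (F * F) * E) := by rw [trace_mul_comm]
      _ = trace (E * F * (F * E)) := by simp only [mul_assoc]
  rw [h]
  exact fsq_nonneg _

theorem Prj.trace_mul_le {E F : Matrix n n ℝ} (hE : Prj E) (hF : Prj F) :
    trace (E * F) ≤ trace E := by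
  have h := hE.trace_mul_nonneg hF.compl
  rw [mul_sub, mul_one, trace_sub] at h
  linarith

/-- flags -/
structure Flg {ι : Type*} [LinearOrder ι] (E : ι → Matrix n n ℝ) : Prop where
  prj : ∀ i, Prj (E i)
  nest : ∀ i j, i ≤ j → E j * E i = E i

theorem Flg.nest' {ι : Type*} [LinearOrder ι] {E : ι → Matrix n n ℝ} (h : Flg E) {i j : ι}
    (hij : i ≤ j) : E i * E j = E i := by
  have h1 := congrArg transpose (h.nest i j hij)
  rwa [transpose_mul, (h.prj i).1, (h.prj j).1] at h1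

theorem fsq_sum {ι : Type*} (s : Finset ι) (b : ι → ℝ) (D : ι → Matrix n n ℝ)
    (hD : ∀ i, (D i)ᵀ = D i) :
    fsq (∑ i ∈ s, b i • D i) = ∑ i ∈ s, ∑ j ∈ s, b i * b j * trace (D i * D j) := by
  rw [← trace_mul_tr, transpose_sum, Finset.sum_mul, trace_sum]
  refine Finset.sum_congr rfl fun i _ => ?_
  rw [Finset.mul_sum, trace_sum]
  refine Finset.sum_congr rfl fun j _ => ?_
  rw [transpose_smul, hD j, smul_mul_smul_comm, trace_smul, smul_eq_mul]

theorem cross_nonneg {ι : Type*} [LinearOrder ι] {E E' : ι → Matrix n n ℝ} (h : Flg E)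
    (h' : Flg E') {i j : ι} (hij : i ≤ j) :
    0 ≤ trace ((E i - E' i) * (E j - E' j)) := by
  have h1 := (h.prj i).trace_mul_le (h'.prj j)
  have h2 := (h'.prj i).trace_mul_le (h.prj j)
  rw [sub_mul, mul_sub, mul_sub, h.nest' hij, h'.nest' hij, trace_sub, trace_sub, trace_sub]
  linarith

/-- `|sum b_j (E_j - E'_j)|^2 >= sum b_j^2 |E_j - E'_j|^2` for two flags. -/
theorem grd_pos {ι : Type*} [LinearOrder ι] {E E' : ι → Matrix n n ℝ} (h : Flg E)
    (h' : Flg E') (s : Finset ι) (b : ι → ℝ) (hb : ∀ i ∈ s, 0 ≤ b i) :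
    ∑ i ∈ s, b i ^ 2 * fsq (E i - E' i) ≤ fsq (∑ i ∈ s, b i • (E i - E' i)) := by
  have hsym : ∀ i, (E i - E' i)ᵀ = E i - E' i := fun i => by
    rw [transpose_sub, (h.prj i).1, (h'.prj i).1]
  rw [fsq_sum s b _ hsym]
  refine Finset.sum_le_sum fun i hi => ?_
  have hnn : ∀ j ∈ s, 0 ≤ b i * b j * trace ((E i - E' i) * (E j - E' j)) := by
    intro j hj
    refine mul_nonneg (mul_nonneg (hb i hi) (hb j hj)) ?_
    rcases le_total i j with hij | hij
    · exact cross_nonneg h h' hij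
    · rw [trace_mul_comm]
      exact cross_nonneg h h' hij
  have hle := Finset.single_le_sum hnn hi
  refine le_trans (le_of_eq ?_) hle
  rw [← trace_mul_tr, hsym]
  ring

/-- a flag from a coordinate flag by an orthogonal matrix -/
theorem flg_orth {ι : Type*} [LinearOrder ι] {P : ι → Matrix n n ℝ} (h : Flg P)
    {k : Matrix n n ℝ} (hk : kᵀ * k = 1) : Flg (fun i => k * P i * kᵀ) := by
  refine ⟨fun i => ⟨?_, ?_⟩, fun i j hij => ?_⟩
  · rw [transpose_mul, transpose_mul, transpose_transpose, (h.prj i).1, mul_assoc]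
  · calc k * P i * kᵀ * (k * P i * kᵀ) = k * P i * (kᵀ * k) * P i * kᵀ := by
          simp only [mul_assoc]
      _ = k * (P i * P i) * kᵀ := by rw [hk, mul_one]; simp only [mul_assoc]
      _ = k * P i * kᵀ := by rw [(h.prj i).2]
  · calc k * P j * kᵀ * (k * P i * kᵀ) = k * P j * (kᵀ * k) * P i * kᵀ := by
          simp only [mul_assoc]
      _ = k * (P j * P i) * kᵀ := by rw [hk, mul_one]; simp only [mul_assoc]
      _ = k * P i * kᵀ := by rw [h.nest i j hij]

end

/-- the coordinate flag: `cflag m j` = projection on the first `j` coordinates -/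
def cflag (m j : ℕ) : Matrix (Fin m) (Fin m) ℝ := Matrix.diagonal fun i => if i.val < j then 1 else 0

theorem flg_cflag (m : ℕ) : Flg (cflag m) := by
  refine ⟨fun j => ⟨by rw [cflag, diagonal_transpose], ?_⟩, fun i j hij => ?_⟩
  · rw [cflag, diagonal_mul_diagonal]
    congr 1
    funext i
    split_ifs <;> simp
  · rw [cflag, cflag, diagonal_mul_diagonal]
    congr 1
    funext l
    by_cases h1 : l.val < i
    · simp [h1, lt_of_lt_of_le h1 hij]
    · simp [h1]

/-- for orthogonal `k`, `k'`: the flags `k P_j k^T` satisfy the lower bound of the gradient. -/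
theorem grd_orth {m : ℕ} {k k' : Matrix (Fin m) (Fin m) ℝ} (hk : kᵀ * k = 1)
    (hk' : k'ᵀ * k' = 1) (s : Finset ℕ) (b : ℕ → ℝ) (hb : ∀ i ∈ s, 0 ≤ b i) :
    ∑ i ∈ s, b i ^ 2 * fsq (k * cflag m i * kᵀ - k' * cflag m i * k'ᵀ) ≤
      fsq (∑ i ∈ s, b i • (k * cflag m i * kᵀ - k' * cflag m i * k'ᵀ)) :=
  grd_pos (flg_orth (flg_cflag m) hk) (flg_orth (flg_cflag m) hk') s b hb

/-- every single term is bounded by the norm of the gradient -/
theorem grd_max {m : ℕ} {k k' : Matrix (Fin m) (Fin m) ℝ} (hk : kᵀ * k = 1)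
    (hk' : k'ᵀ * k' = 1) (s : Finset ℕ) (b : ℕ → ℝ) (hb : ∀ i ∈ s, 0 ≤ b i) {i : ℕ} (hi : i ∈ s) :
    b i * Real.sqrt (fsq (k * cflag m i * kᵀ - k' * cflag m i * k'ᵀ)) ≤
      Real.sqrt (fsq (∑ i ∈ s, b i • (k * cflag m i * kᵀ - k' * cflag m i * k'ᵀ))) := by
  refine Real.le_sqrt_of_sq_le ?_
  rw [mul_pow, Real.sq_sqrt (fsq_nonneg _)]
  refine le_trans ?_ (grd_orth hk hk' s b hb)
  exact Finset.single_le_sum
    (f := fun i => b i ^ 2 * fsq (k * cflag m i * kᵀ - k' * cflag m i * k'ᵀ))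
    (fun i _ => mul_nonneg (sq_nonneg _) (fsq_nonneg _)) hi

end Pool.Agent.H27.L1.H40.GHK
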