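import Mathlib
import Pool.Agent.H27.L1.H40.GHK.GRD

/-! Slicing of the Frobenius ball in the space of matrices along one coordinate. -/

noncomputable section

namespace Pool.Agent.H27.L1.H40.GHK

open MeasureTheory Set

/-- the space of the rest of the coordinates -/
abbrev Rst (n : ℕ) : Type := (Fin n → ℝ) × (Fin n → Fin (n + 1) → ℝ)

/-- the unit matrix with entry 1 at the place `(a, b)` -/
def eab {m : ℕ} (a b : Fin m) : Fin m → Fin m → ℝ := fun i j => if i = a ∧ j = b then 1 else 0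

/-- glue -/
def glu {n : ℕ} (a b : Fin (n + 1)) (p : ℝ × Rst n) : Fin (n + 1) → Fin (n + 1) → ℝ :=
  a.insertNth (α := fun _ => Fin (n + 1) → ℝ) (b.insertNth (α := fun _ => ℝ) p.1 p.2.1) p.2.2

theorem glu_mp {n : ℕ} (a b : Fin (n + 1)) :
    MeasurePreserving (glu a b) (volume : Measure (ℝ × Rst n)) volume ∧
      MeasurableEmbedding (glu a b) := by
  let e1 := MeasurableEquiv.piFinSuccAbove (fun _ : Fin (n + 1) => (Fin (n + 1) → ℝ)) a
  let e2 := MeasurableEquiv.piFinSuccAbove (fun _ : Fin (n + 1) => ℝ) b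
  have h1 : MeasurePreserving e1.symm volume volume :=
    (volume_preserving_piFinSuccAbove (fun _ : Fin (n + 1) => (Fin (n + 1) → ℝ)) a).symm
  have h2 : MeasurePreserving e2.symm volume volume :=
    (volume_preserving_piFinSuccAbove (fun _ : Fin (n + 1) => ℝ) b).symm
  let e3 : ℝ × Rst n ≃ᵐ (ℝ × (Fin n → ℝ)) × (Fin n → Fin (n + 1) → ℝ) :=
    MeasurableEquiv.prodAssoc.symm
  have h3 : MeasurePreserving e3 volume volume :=
    (volume_preserving_prodAssoc (α₁ := ℝ) (β₁ := Fin n → ℝ)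
      (γ₁ := Fin n → Fin (n + 1) → ℝ)).symm
  let e4 : (ℝ × (Fin n → ℝ)) × (Fin n → Fin (n + 1) → ℝ) ≃ᵐ
      (Fin (n + 1) → ℝ) × (Fin n → Fin (n + 1) → ℝ) :=
    e2.symm.prodCongr (MeasurableEquiv.refl _)
  have h4 : MeasurePreserving e4 volume volume := h2.prod (MeasurePreserving.id _)
  have h5 : glu a b = (e3.trans (e4.trans e1.symm)) := by
    funext p
    rfl
  rw [h5]
  exact ⟨(h1.comp h4).comp h3, MeasurableEquiv.measurableEmbedding _⟩

theorem glu_ab {n : ℕ} (a b : Fin (n + 1)) (s : ℝ) (z : Rst n) : glu a b (s, z) a b = s := by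
  simp [glu]

theorem glu_add {n : ℕ} (a b : Fin (n + 1)) (s : ℝ) (z : Rst n) :
    glu a b (s, z) = glu a b (0, z) + s • eab a b := by
  funext i j
  simp only [Pi.add_apply, Pi.smul_apply, smul_eq_mul, eab]
  rcases Fin.eq_self_or_eq_succAbove a i with rfl | ⟨i', rfl⟩
  · rcases Fin.eq_self_or_eq_succAbove b j with rfl | ⟨j', rfl⟩
    · simp [glu]
    · simp [glu, Fin.succAbove_ne]
  · simp [glu, Fin.succAbove_ne]

theorem fsq_glu {n : ℕ} (a b : Fin (n + 1)) (s : ℝ) (z : Rst n) :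
    fsq (glu a b (s, z)) = s ^ 2 + fsq (glu a b (0, z)) := by
  have key : ∀ t : ℝ, fsq (glu a b (t, z)) =
      t ^ 2 + (∑ j, z.1 j ^ 2) + ∑ i, ∑ j, z.2 i j ^ 2 := by
    intro t
    unfold fsq
    rw [Fin.sum_univ_succAbove _ a, Fin.sum_univ_succAbove _ b]
    simp [glu]
  rw [key s, key 0]
  ring

theorem rest_small {n : ℕ} (a b : Fin (n + 1)) {r : ℝ} (hr : 0 < r) (z : Rst n)
    (hz : fsq (glu a b (0, z)) < r ^ 2) :
    z ∈ (Set.pi univ fun _ : Fin n => Ioo (-r) r) ×ˢ
      (Set.pi univ fun _ : Fin n => Set.pi univ fun _ : Fin (n + 1) => Ioo (-r) r) := by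
  have key : fsq (glu a b (0, z)) = (∑ j, z.1 j ^ 2) + ∑ i, ∑ j, z.2 i j ^ 2 := by
    unfold fsq
    rw [Fin.sum_univ_succAbove _ a, Fin.sum_univ_succAbove _ b]
    simp [glu]
  rw [key] at hz
  have hA : 0 ≤ ∑ j, z.1 j ^ 2 := Finset.sum_nonneg fun _ _ => sq_nonneg _
  have hB : 0 ≤ ∑ i, ∑ j, z.2 i j ^ 2 :=
    Finset.sum_nonneg fun _ _ => Finset.sum_nonneg fun _ _ => sq_nonneg _
  refine ⟨?_, ?_⟩
  · intro j _
    have h1 : z.1 j ^ 2 ≤ ∑ j, z.1 j ^ 2 :=
      Finset.single_le_sum (f := fun j => z.1 j ^ 2) (fun _ _ => sq_nonneg _) (Finset.mem_univ j)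
    exact abs_lt.mp (abs_lt_of_sq_lt_sq (by linarith) hr.le)
  · intro i _ j _
    have h1 : z.2 i j ^ 2 ≤ ∑ j, z.2 i j ^ 2 :=
      Finset.single_le_sum (f := fun j => z.2 i j ^ 2) (fun _ _ => sq_nonneg _) (Finset.mem_univ j)
    have h2 : ∑ j, z.2 i j ^ 2 ≤ ∑ i, ∑ j, z.2 i j ^ 2 :=
      Finset.single_le_sum (f := fun i => ∑ j, z.2 i j ^ 2)
        (fun _ _ => Finset.sum_nonneg fun _ _ => sq_nonneg _) (Finset.mem_univ i)
    exact abs_lt.mp (abs_lt_of_sq_lt_sq (by linarith) hr.le)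

theorem vol_rest {n : ℕ} {r : ℝ} (hr : 0 < r) :
    volume ((Set.pi univ fun _ : Fin n => Ioo (-r) r) ×ˢ
      (Set.pi univ fun _ : Fin n => Set.pi univ fun _ : Fin (n + 1) => Ioo (-r) r) : Set (Rst n)) =
      ENNReal.ofReal ((2 * r) ^ ((n + 1) * (n + 1) - 1)) := by
  rw [Measure.volume_eq_prod, Measure.prod_prod, volume_pi_pi, volume_pi_pi]
  simp only [volume_pi_pi, Real.volume_Ioo, Finset.prod_const, Finset.card_univ, Fintype.card_fin]
  rw [← pow_mul, ← pow_add, ← ENNReal.ofReal_pow (by linarith)]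
  congr 1
  have h1 : r - -r = 2 * r := by ring
  rw [h1]
  congr 1
  have : (n + 1) * (n + 1) = n + (n + 1) * n + 1 := by ring
  omega

theorem fub {m : ℕ} {r : ℝ} (hr : 0 < r) (a b : Fin m) (f : (Fin m → Fin m → ℝ) → ℂ) (M : ℝ)
    (hM : 0 ≤ M)
    (h : ∀ Y0 : Fin m → Fin m → ℝ, Y0 a b = 0 → fsq Y0 < r ^ 2 →
      ‖∫ s in (-Real.sqrt (r ^ 2 - fsq Y0))..(Real.sqrt (r ^ 2 - fsq Y0)),
        f (Y0 + s • eab a b)‖ ≤ M) :
    ‖∫ Y in {Y : Fin m → Fin m → ℝ | fsq Y < r ^ 2}, f Y‖ ≤ M * (2 * r) ^ (m * m - 1) := by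
  cases m with
  | zero => exact a.elim0
  | succ n =>
    obtain ⟨hmp, hme⟩ := glu_mp a b
    have hmeas : MeasurableSet {Y : Fin (n + 1) → Fin (n + 1) → ℝ | fsq Y < r ^ 2} := by
      refine measurableSet_lt ?_ measurable_const
      unfold fsq
      fun_prop
    by_cases hint : IntegrableOn f {Y : Fin (n + 1) → Fin (n + 1) → ℝ | fsq Y < r ^ 2}
    swap
    · rw [integral_undef hint, norm_zero]
      positivity
    rw [← integral_indicator hmeas]
    rw [← hmp.integral_comp hme]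
    have hint2 : Integrable (fun p : ℝ × Rst n =>
        ({Y : Fin (n + 1) → Fin (n + 1) → ℝ | fsq Y < r ^ 2}.indicator f) (glu a b p)) := by
      have := (integrable_indicator_iff hmeas).mpr hint
      exact (hmp.integrable_comp_emb hme).mpr this
    rw [Measure.volume_eq_prod] at hint2 ⊢
    rw [integral_prod_symm _ hint2]
    set S : Set (Rst n) := {z | fsq (glu a b (0, z)) < r ^ 2} with hS
    have hslice : ∀ z : Rst n, (∫ s : ℝ, ({Y : Fin (n + 1) → Fin (n + 1) → ℝ |
        fsq Y < r ^ 2}.indicator f) (glu a b (s, z))) =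
        S.indicator (fun z => ∫ s in (-Real.sqrt (r ^ 2 - fsq (glu a b (0, z))))..
          (Real.sqrt (r ^ 2 - fsq (glu a b (0, z)))), f (glu a b (0, z) + s • eab a b)) z := by
      intro z
      by_cases hz : z ∈ S
      · rw [indicator_of_mem hz]
        have hz' : fsq (glu a b (0, z)) < r ^ 2 := hz
        rw [intervalIntegral.integral_of_le (by
          have := Real.sqrt_nonneg (r ^ 2 - fsq (glu a b (0, z)))
          linarith)]
        rw [integral_Ioc_eq_integral_Ioo, ← integral_indicator measurableSet_Ioo]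
        refine integral_congr_ae (Filter.Eventually.of_forall fun s => ?_)
        have hiff : (glu a b (s, z) ∈ {Y : Fin (n + 1) → Fin (n + 1) → ℝ | fsq Y < r ^ 2}) ↔
            s ∈ Ioo (-Real.sqrt (r ^ 2 - fsq (glu a b (0, z))))
              (Real.sqrt (r ^ 2 - fsq (glu a b (0, z)))) := by
          change fsq (glu a b (s, z)) < r ^ 2 ↔ _
          rw [fsq_glu, mem_Ioo, ← abs_lt, Real.lt_sqrt (abs_nonneg _), sq_abs]
          constructor <;> intro h <;> linarith
        change ({Y : Fin (n + 1) → Fin (n + 1) → ℝ | fsq Y < r ^ 2}.indicator f)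
          (glu a b (s, z)) = _
        by_cases hs : s ∈ Ioo (-Real.sqrt (r ^ 2 - fsq (glu a b (0, z))))
              (Real.sqrt (r ^ 2 - fsq (glu a b (0, z))))
        · rw [indicator_of_mem (hiff.mpr hs), indicator_of_mem hs, ← glu_add]
        · rw [indicator_of_notMem (fun hc => hs (hiff.mp hc)), indicator_of_notMem hs]
      · rw [indicator_of_notMem hz]
        have hz' : ¬ fsq (glu a b (0, z)) < r ^ 2 := hz
        have : ∀ s : ℝ, ({Y : Fin (n + 1) → Fin (n + 1) → ℝ |
            fsq Y < r ^ 2}.indicator f) (glu a b (s, z)) = 0 := by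
          intro s
          refine indicator_of_notMem ?_ _
          change ¬ fsq (glu a b (s, z)) < r ^ 2
          rw [fsq_glu]
          intro hc
          exact hz' (lt_of_le_of_lt (by nlinarith [sq_nonneg s]) hc)
        simp [this]
    simp only [hslice]
    have hSm : MeasurableSet S := by
      refine measurableSet_lt ?_ measurable_const
      have h1 : Measurable fun z : Rst n => glu a b (0, z) :=
        hmp.measurable.comp (measurable_const.prodMk measurable_id)
      have h2 : Measurable fun Y : Fin (n + 1) → Fin (n + 1) → ℝ => fsq Y := by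
        unfold fsq
        fun_prop
      exact h2.comp h1
    rw [integral_indicator hSm]
    have hSsub : S ⊆ (Set.pi univ fun _ : Fin n => Ioo (-r) r) ×ˢ
        (Set.pi univ fun _ : Fin n => Set.pi univ fun _ : Fin (n + 1) => Ioo (-r) r) :=
      fun z hz => rest_small a b hr z hz
    have hvol : volume S ≤ ENNReal.ofReal ((2 * r) ^ ((n + 1) * (n + 1) - 1)) := by
      rw [← vol_rest hr]
      exact measure_mono hSsub
    have hfin : volume S < ⊤ := lt_of_le_of_lt hvol ENNReal.ofReal_lt_top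
    have hb := norm_setIntegral_le_of_norm_le_const hfin (f := fun z : Rst n =>
        ∫ s in (-Real.sqrt (r ^ 2 - fsq (glu a b (0, z))))..
          (Real.sqrt (r ^ 2 - fsq (glu a b (0, z)))), f (glu a b (0, z) + s • eab a b)) (C := M)
        (fun z hz => h _ (glu_ab a b 0 z) hz)
    refine hb.trans ?_
    refine mul_le_mul_of_nonneg_left ?_ hM
    exact ENNReal.toReal_le_of_le_ofReal (by positivity) hvol

end Pool.Agent.H27.L1.H40.GHK
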